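import Mathlib
import Pool.Agent.Helper107.MZarc

set_option autoImplicit false

namespace Pool.Agent.Results.MP_c161d8_an.RectifiableSubarc

/-- For every set S of positive integers with finite sum of reciprocals and every Jordan arc that
contains a subarc of finite length, or a subarc along which the direction z/|z| has bounded
variation, the powers z^p (p in S) do not span the continuous functions on the arc. -/
theorem result :
    ∀ S : Set ℕ, (∀ p ∈ S, 0 < p) →
      Summable (fun p : S => (1 : ℝ) / ((p : ℕ) : ℝ)) →
      ∀ f : C(unitInterval, ℂ), Function.Injective f →
        (∃ a b : unitInterval, a < b ∧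
          (BoundedVariationOn f (Set.Icc a b) ∨
            BoundedVariationOn (fun t => f t / ‖f t‖) (Set.Icc a b))) →
        (Submodule.span ℂ (Set.range (fun p : S => f ^ (p : ℕ)))).topologicalClosure ≠ ⊤ :=
  fun S hS hsum f hf hvar => Pool.Agent.Helper107.MZ.arc_B S hS hsum f hf hvar

end Pool.Agent.Results.MP_c161d8_an.RectifiableSubarc
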